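import Mathlib

/-!
# The squared coefficient of variation of an MMPP is at least one

For every Markov-modulated Poisson process, `(π C 1) (π C⁻¹ 1) ≥ 1`.

Proof: with `A = D - Q = -C` and `h = A⁻¹ 1` the Dirichlet form `x ↦ ⟨x, A x⟩_π` is nonnegative, and
`0 ≤ ⟨h - c 1, A (h - c 1)⟩_π = m - 2 c + c² d`, where `m = π A⁻¹ 1` and `d = π A 1`. Take `c = 1 / d`.
-/

open Matrix Finset

namespace Pool.Agent.Results.MP_af8c33_pr.CvSquaredGeOne

/-- The data of a Markov-modulated Poisson process of order `p`: `Q` is the generator of an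
irreducible continuous-time Markov chain on `Fin p`, the `lam i ≥ 0` are the event rates, not all
zero, and `pi` is the stationary row vector of `Q`. -/
structure IsMMPP {p : ℕ} (Q : Matrix (Fin p) (Fin p) ℝ) (lam pi : Fin p → ℝ) : Prop where
  /-- the off-diagonal entries of `Q` are nonnegative -/
  nonneg : ∀ i j, i ≠ j → 0 ≤ Q i j
  /-- the rows of `Q` sum to zero -/
  row_sum : ∀ i, ∑ j, Q i j = 0
  /-- `Q` is irreducible -/
  irreducible : ∀ i j, Relation.ReflTransGen (fun a b => 0 < Q a b) i j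
  /-- the rates are nonnegative -/
  rate_nonneg : ∀ i, 0 ≤ lam i
  /-- the rates are not all zero -/
  rate_ne_zero : ∃ i, lam i ≠ 0
  /-- `π Q = 0` -/
  stationary : pi ᵥ* Q = 0
  /-- `π 1 = 1` -/
  sum_one : ∑ i, pi i = 1

/-- The matrix `C = Q - D`, with `D = diag(lam)`. -/
def matC {p : ℕ} (Q : Matrix (Fin p) (Fin p) ℝ) (lam : Fin p → ℝ) : Matrix (Fin p) (Fin p) ℝ :=
  Q - Matrix.diagonal lam

variable {p : ℕ} {Q : Matrix (Fin p) (Fin p) ℝ} {lam pi : Fin p → ℝ}

/-- A nonnegative row vector with `ν Q = 0` which vanishes somewhere vanishes everywhere. -/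
lemma eq_zero_of_stationary (hn : ∀ i j, i ≠ j → 0 ≤ Q i j)
    (hirr : ∀ i j, Relation.ReflTransGen (fun a b => 0 < Q a b) i j)
    (ν : Fin p → ℝ) (hν : ∀ i, 0 ≤ ν i) (hs : ∀ j, ∑ i, ν i * Q i j = 0) (j : Fin p)
    (hj : ν j = 0) (i : Fin p) : ν i = 0 := by
  have key : ∀ i, Relation.ReflTransGen (fun a b => 0 < Q a b) i j → ν i = 0 := by
    intro i h
    induction h using Relation.ReflTransGen.head_induction_on with
    | refl => exact hj
    | @head a b hab _ ih =>
      by_contra hne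
      have hpos : 0 < ν a := lt_of_le_of_ne (hν a) (Ne.symm hne)
      have hs' := hs b
      have h1 : ∀ k ∈ (Finset.univ : Finset (Fin p)), 0 ≤ ν k * Q k b := by
        intro k _
        by_cases hk : k = b
        · rw [hk, ih, zero_mul]
        · exact mul_nonneg (hν k) (hn k b hk)
      have h2 := (Finset.sum_eq_zero_iff_of_nonneg h1).1 hs' a (Finset.mem_univ a)
      have := mul_pos hpos hab
      linarith
  exact key i (hirr i j)

/-- The stationary row vector is positive. -/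
lemma pi_pos (h : IsMMPP Q lam pi) (i : Fin p) : 0 < pi i := by
  have hst : ∀ j, ∑ i, pi i * Q i j = 0 := by
    intro j
    have := congrFun h.stationary j
    simpa [Matrix.vecMul, dotProduct] using this
  -- `|π|` is stationary as well
  have hle : ∀ j, 0 ≤ ∑ i, |pi i| * Q i j := by
    intro j
    have h1 := hst j
    rw [← Finset.add_sum_erase _ _ (Finset.mem_univ j)] at h1 ⊢
    have h2 : pi j * Q j j = - ∑ i ∈ Finset.univ.erase j, pi i * Q i j := by linarith
    have h3 : |pi j * Q j j| ≤ ∑ i ∈ Finset.univ.erase j, |pi i| * Q i j := by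
      rw [h2, abs_neg]
      refine (Finset.abs_sum_le_sum_abs _ _).trans (Finset.sum_le_sum fun i hi => ?_)
      rw [abs_mul, abs_of_nonneg (h.nonneg i j (Finset.ne_of_mem_erase hi))]
    have h4 : -(|pi j| * Q j j) ≤ |pi j * Q j j| := by
      rw [abs_mul]
      have : -(|pi j| * Q j j) = |pi j| * (- Q j j) := by ring
      rw [this]
      exact mul_le_mul_of_nonneg_left (neg_le_abs _) (abs_nonneg _)
    linarith
  have hsum : ∑ j, ∑ i, |pi i| * Q i j = 0 := by
    rw [Finset.sum_comm]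
    refine Finset.sum_eq_zero fun i _ => ?_
    rw [← Finset.mul_sum, h.row_sum i, mul_zero]
  have habs : ∀ j, ∑ i, |pi i| * Q i j = 0 := by
    intro j
    exact (Finset.sum_eq_zero_iff_of_nonneg (fun j _ => hle j)).1 hsum j (Finset.mem_univ j)
  have hm : ∀ j, ∑ i, (|pi i| - pi i) * Q i j = 0 := by
    intro j
    simp only [sub_mul, Finset.sum_sub_distrib]
    rw [habs j, hst j, sub_zero]
  have hm0 : ∀ i, 0 ≤ |pi i| - pi i := fun i => by
    have := le_abs_self (pi i)
    linarith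
  -- some `π j` is positive
  have hex : ∃ j, 0 < pi j := by
    by_contra hcon
    push Not at hcon
    have : ∑ i, pi i ≤ 0 := Finset.sum_nonpos fun i _ => hcon i
    rw [h.sum_one] at this
    linarith
  obtain ⟨j, hj⟩ := hex
  have h0 : ∀ i, |pi i| - pi i = 0 :=
    eq_zero_of_stationary h.nonneg h.irreducible _ hm0 hm j (by rw [abs_of_pos hj, sub_self])
  have hnn : ∀ i, 0 ≤ pi i := fun i => by
    have := h0 i
    have h2 := abs_nonneg (pi i)
    linarith
  by_contra hcon
  have hi : pi i = 0 := le_antisymm (not_lt.1 hcon) (hnn i)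
  have := eq_zero_of_stationary h.nonneg h.irreducible _ hnn hst i hi j
  linarith

/-- The Dirichlet form identity. -/
lemma dirichlet (h : IsMMPP Q lam pi) (x : Fin p → ℝ) :
    ∑ i, pi i * (x i * (∑ j, Q i j * x j)) =
      -(1 / 2) * ∑ i, ∑ j, pi i * Q i j * (x i - x j) ^ 2 := by
  have hst : ∀ j, ∑ i, pi i * Q i j = 0 := by
    intro j
    have := congrFun h.stationary j
    simpa [Matrix.vecMul, dotProduct] using this
  have e1 : ∑ i, ∑ j, pi i * Q i j * x i ^ 2 = 0 := by
    refine Finset.sum_eq_zero fun i _ => ?_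
    have : ∀ j, pi i * Q i j * x i ^ 2 = (pi i * x i ^ 2) * Q i j := fun j => by ring
    simp only [this]
    rw [← Finset.mul_sum, h.row_sum i, mul_zero]
  have e2 : ∑ i, ∑ j, pi i * Q i j * x j ^ 2 = 0 := by
    rw [Finset.sum_comm]
    refine Finset.sum_eq_zero fun j _ => ?_
    rw [← Finset.sum_mul, hst j, zero_mul]
  have e3 : ∑ i, ∑ j, pi i * Q i j * (x i - x j) ^ 2 =
      (∑ i, ∑ j, pi i * Q i j * x i ^ 2) + (∑ i, ∑ j, pi i * Q i j * x j ^ 2) -
        2 * ∑ i, pi i * (x i * (∑ j, Q i j * x j)) := by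
    have : ∀ i, pi i * (x i * (∑ j, Q i j * x j)) = ∑ j, pi i * Q i j * (x i * x j) := by
      intro i
      rw [← mul_assoc, Finset.mul_sum]
      exact Finset.sum_congr rfl fun j _ => by ring
    simp only [this]
    rw [Finset.mul_sum, ← Finset.sum_add_distrib, ← Finset.sum_sub_distrib]
    refine Finset.sum_congr rfl fun i _ => ?_
    rw [Finset.mul_sum, ← Finset.sum_add_distrib, ← Finset.sum_sub_distrib]
    exact Finset.sum_congr rfl fun j _ => by ring
  rw [e3, e1, e2]
  ring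

lemma form_eq (h : IsMMPP Q lam pi) (x : Fin p → ℝ) :
    ∑ i, pi i * (x i * (matC Q lam *ᵥ x) i) =
      -((1 / 2) * ∑ i, ∑ j, pi i * Q i j * (x i - x j) ^ 2) - ∑ i, pi i * lam i * x i ^ 2 := by
  have e : ∀ i, (matC Q lam *ᵥ x) i = (∑ j, Q i j * x j) - lam i * x i := by
    intro i
    unfold matC
    rw [Matrix.sub_mulVec, Pi.sub_apply, Matrix.mulVec_diagonal]
    rfl
  have : ∀ i, pi i * (x i * (matC Q lam *ᵥ x) i) =
      pi i * (x i * (∑ j, Q i j * x j)) - pi i * lam i * x i ^ 2 := by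
    intro i
    rw [e i]
    ring
  simp only [this, Finset.sum_sub_distrib]
  rw [dirichlet h x]
  ring

lemma term_nonneg (h : IsMMPP Q lam pi) (x : Fin p → ℝ) (i j : Fin p) :
    0 ≤ pi i * Q i j * (x i - x j) ^ 2 := by
  by_cases hij : i = j
  · rw [hij]
    simp
  · exact mul_nonneg (mul_nonneg (pi_pos h i).le (h.nonneg i j hij)) (sq_nonneg _)

lemma form_nonpos (h : IsMMPP Q lam pi) (x : Fin p → ℝ) :
    ∑ i, pi i * (x i * (matC Q lam *ᵥ x) i) ≤ 0 := by
  rw [form_eq h x]
  have h1 : 0 ≤ ∑ i, ∑ j, pi i * Q i j * (x i - x j) ^ 2 :=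
    Finset.sum_nonneg fun i _ => Finset.sum_nonneg fun j _ => term_nonneg h x i j
  have h2 : 0 ≤ ∑ i, pi i * lam i * x i ^ 2 :=
    Finset.sum_nonneg fun i _ => mul_nonneg (mul_nonneg (pi_pos h i).le (h.rate_nonneg i))
      (sq_nonneg _)
  linarith

/-- `C` is nonsingular. -/
lemma det_ne_zero (h : IsMMPP Q lam pi) : (matC Q lam).det ≠ 0 := by
  intro hdet
  obtain ⟨x, hx0, hx⟩ := Matrix.exists_mulVec_eq_zero_iff.2 hdet
  have h0 : ∑ i, pi i * (x i * (matC Q lam *ᵥ x) i) = 0 := by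
    rw [hx]
    simp
  rw [form_eq h x] at h0
  have h1 : 0 ≤ ∑ i, ∑ j, pi i * Q i j * (x i - x j) ^ 2 :=
    Finset.sum_nonneg fun i _ => Finset.sum_nonneg fun j _ => term_nonneg h x i j
  have h2 : ∀ i ∈ (Finset.univ : Finset (Fin p)), 0 ≤ pi i * lam i * x i ^ 2 :=
    fun i _ => mul_nonneg (mul_nonneg (pi_pos h i).le (h.rate_nonneg i)) (sq_nonneg _)
  have h2' := Finset.sum_nonneg h2
  have h3 : ∑ i, ∑ j, pi i * Q i j * (x i - x j) ^ 2 = 0 := by linarith
  have h4 : ∑ i, pi i * lam i * x i ^ 2 = 0 := by linarith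
  have h5 : ∀ i j, 0 < Q i j → x i = x j := by
    intro i j hij
    have := (Finset.sum_eq_zero_iff_of_nonneg
      (fun i _ => Finset.sum_nonneg fun j _ => term_nonneg h x i j)).1 h3 i (Finset.mem_univ i)
    have := (Finset.sum_eq_zero_iff_of_nonneg (fun j _ => term_nonneg h x i j)).1 this j
      (Finset.mem_univ j)
    have hp : pi i * Q i j ≠ 0 := (mul_pos (pi_pos h i) hij).ne'
    have := (mul_eq_zero.1 this).resolve_left hp
    have := pow_eq_zero_iff (two_ne_zero) |>.1 this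
    linarith
  obtain ⟨k, hk⟩ := h.rate_ne_zero
  have h6 : x k = 0 := by
    have := (Finset.sum_eq_zero_iff_of_nonneg h2).1 h4 k (Finset.mem_univ k)
    have hp : pi k * lam k ≠ 0 := mul_ne_zero (pi_pos h k).ne' hk
    have := (mul_eq_zero.1 this).resolve_left hp
    exact pow_eq_zero_iff (two_ne_zero) |>.1 this
  apply hx0
  funext i
  have : x i = x k := by
    have := h.irreducible i k
    induction this using Relation.ReflTransGen.head_induction_on with
    | refl => rfl
    | head hab _ ih => rw [h5 _ _ hab, ih]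
  rw [this, h6]
  rfl

/-- **Q2**: `(π C 1) (π C⁻¹ 1) ≥ 1` for every Markov-modulated Poisson process. -/
theorem result (p : ℕ) (Q : Matrix (Fin p) (Fin p) ℝ) (lam pi : Fin p → ℝ)
    (h : IsMMPP Q lam pi) :
    IsUnit (matC Q lam) ∧
      1 ≤ (pi ⬝ᵥ (matC Q lam *ᵥ 1)) * (pi ⬝ᵥ ((matC Q lam)⁻¹ *ᵥ 1)) := by
  have hu : IsUnit (matC Q lam) := by
    rw [Matrix.isUnit_iff_isUnit_det]
    exact isUnit_iff_ne_zero.2 (det_ne_zero h)
  refine ⟨hu, ?_⟩
  set C := matC Q lam with hC
  have hC1 : C *ᵥ 1 = - lam := by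
    funext i
    rw [hC]
    unfold matC
    rw [Matrix.sub_mulVec, Pi.sub_apply, Matrix.mulVec_diagonal]
    have : (Q *ᵥ 1) i = 0 := by
      simp only [Matrix.mulVec, dotProduct, Pi.one_apply, mul_one]
      exact h.row_sum i
    rw [this]
    simp
  -- `d = π D 1`
  set d := ∑ i, pi i * lam i with hd
  have hdpos : 0 < d := by
    obtain ⟨k, hk⟩ := h.rate_ne_zero
    have hk' : 0 < lam k := lt_of_le_of_ne (h.rate_nonneg k) (Ne.symm hk)
    exact Finset.sum_pos' (fun i _ => mul_nonneg (pi_pos h i).le (h.rate_nonneg i))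
      ⟨k, Finset.mem_univ k, mul_pos (pi_pos h k) hk'⟩
  have e1 : pi ⬝ᵥ (C *ᵥ 1) = -d := by
    rw [hC1, dotProduct_neg]
    rfl
  -- `g = C⁻¹ 1`
  set g := C⁻¹ *ᵥ (1 : Fin p → ℝ) with hg
  have hCg : C *ᵥ g = 1 := by
    rw [hg, Matrix.mulVec_mulVec, Matrix.mul_nonsing_inv _
      ((Matrix.isUnit_iff_isUnit_det C).1 hu), Matrix.one_mulVec]
  -- `π C = - π D`
  have hpiC : pi ᵥ* C = fun i => - (pi i * lam i) := by
    rw [hC]
    unfold matC
    rw [Matrix.vecMul_sub, h.stationary]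
    funext i
    simp [Matrix.vecMul_diagonal]
  have e2 : ∑ i, pi i * lam i * g i = -1 := by
    have h1 : pi ⬝ᵥ (C *ᵥ g) = 1 := by
      rw [hCg]
      simp [dotProduct, h.sum_one]
    rw [Matrix.dotProduct_mulVec, hpiC] at h1
    simp only [dotProduct, neg_mul, Finset.sum_neg_distrib] at h1
    linarith
  set m := ∑ i, pi i * g i with hm
  have e3 : pi ⬝ᵥ g = m := rfl
  rw [e1, e3]
  -- the form at `g + (1/d) 1`
  have key := form_nonpos h (g + fun _ => (1 / d))
  rw [← hC] at key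
  have e4 : C *ᵥ (g + fun _ => (1 / d)) = fun i => 1 - (1 / d) * lam i := by
    have : (fun _ => (1 / d) : Fin p → ℝ) = (1 / d) • (1 : Fin p → ℝ) := by
      funext i
      simp
    rw [this, Matrix.mulVec_add, hCg, Matrix.mulVec_smul, hC1]
    funext i
    simp only [Pi.add_apply, Pi.one_apply, Pi.smul_apply, Pi.neg_apply, smul_eq_mul]
    ring
  rw [e4] at key
  have e5 : ∑ i, pi i * ((g + fun _ => (1 / d) : Fin p → ℝ) i * (1 - 1 / d * lam i)) =
      m + (1 / d) * (∑ i, pi i) - (1 / d) * (∑ i, pi i * lam i * g i) -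
        (1 / d) * (1 / d) * ∑ i, pi i * lam i := by
    rw [hm, Finset.mul_sum, Finset.mul_sum, Finset.mul_sum, ← Finset.sum_add_distrib,
      ← Finset.sum_sub_distrib, ← Finset.sum_sub_distrib]
    refine Finset.sum_congr rfl fun i _ => ?_
    simp only [Pi.add_apply]
    ring
  have key2 : ∑ i, pi i * ((g + fun _ => (1 / d) : Fin p → ℝ) i * (1 - 1 / d * lam i)) ≤ 0 := key
  rw [e5, h.sum_one, e2, ← hd] at key2
  have e6 : (1 / d) * (1 / d) * d = 1 / d := by
    field_simp
  rw [e6] at key2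
  have key3 : m ≤ -(1 / d) := by linarith
  have : -d * m ≥ -d * (-(1 / d)) := by
    have := mul_le_mul_of_nonpos_left key3 (by linarith : -d ≤ 0)
    linarith
  have e7 : -d * (-(1 / d)) = 1 := by
    field_simp
  linarith

end Pool.Agent.Results.MP_af8c33_pr.CvSquaredGeOne
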