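import Mathlib

/-!
# The time-stationary first event time of an MMPP need not dominate the event-stationary one

The Markov-modulated Poisson process of order `14` in which the background chain moves
`0 → 1 → ⋯ → 13 → 0` at rate `4`, with event rate `1` in the states `0, …, 6` and `0` in the states
`7, …, 13`, satisfies `π exp(3 C) 1 < α exp(3 C) 1`.

Proof: `14 (α - π) exp(3 C) 1 = e⁻¹⁵ ∑ₙ 3ⁿ / n! · 14 (α - π) Bⁿ 1` with `B = C + 5 I`, a matrix with
nonnegative integer entries. The first `36` terms are computed, the others are bounded by
`14 · 15ⁿ / n!`.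
-/

open Matrix Finset

namespace Pool.Agent.Results.MP_af8c33_pr.NoStochasticOrder

/-- The data of a Markov-modulated Poisson process of order `p`: `Q` is the generator of an
irreducible continuous-time Markov chain on `Fin p`, the `lam i ≥ 0` are the event rates, not all
zero, and `pi` is the stationary row vector of `Q`. -/
structure IsMMPP {p : ℕ} (Q : Matrix (Fin p) (Fin p) ℝ) (lam pi : Fin p → ℝ) : Prop where
  /-- the off-diagonal entries of `Q` are nonnegative -/
  nonneg : ∀ i j, i ≠ j → 0 ≤ Q i j
  /-- the rows of `Q` sum to zero -/
  row_sum : ∀ i, ∑ j, Q i j = 0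
  /-- `Q` is irreducible -/
  irreducible : ∀ i j, Relation.ReflTransGen (fun a b => 0 < Q a b) i j
  /-- the rates are nonnegative -/
  rate_nonneg : ∀ i, 0 ≤ lam i
  /-- the rates are not all zero -/
  rate_ne_zero : ∃ i, lam i ≠ 0
  /-- `π Q = 0` -/
  stationary : pi ᵥ* Q = 0
  /-- `π 1 = 1` -/
  sum_one : ∑ i, pi i = 1

/-- The matrix `C = Q - D`, with `D = diag(lam)`. -/
def matC {p : ℕ} (Q : Matrix (Fin p) (Fin p) ℝ) (lam : Fin p → ℝ) : Matrix (Fin p) (Fin p) ℝ :=
  Q - Matrix.diagonal lam

/-- The row vector `α = π D / (π D 1)`, with `D = diag(lam)`. -/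
noncomputable def alpha {p : ℕ} (lam pi : Fin p → ℝ) : Fin p → ℝ :=
  fun i => pi i * lam i / ∑ j, pi j * lam j

/-- The survival function `t ↦ η exp(C t) 1` of the first event time, if the background chain
starts from `η`. -/
noncomputable def survival {p : ℕ} (C : Matrix (Fin p) (Fin p) ℝ) (η : Fin p → ℝ) (t : ℝ) : ℝ :=
  η ⬝ᵥ (NormedSpace.exp (t • C) *ᵥ 1)

/-- The generator of the cyclic chain with rate `4`. -/
def exQ : Matrix (Fin 14) (Fin 14) ℝ := fun i j => if j = i + 1 then 4 else if j = i then -4 else 0

/-- The rates: `1` in the first seven states, `0` in the others. -/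
def exLam : Fin 14 → ℝ := fun i => if i < 7 then 1 else 0

/-- The uniform distribution. -/
noncomputable def exPi : Fin 14 → ℝ := fun _ => 1 / 14

lemma exQ_mulVec (x : Fin 14 → ℝ) (i : Fin 14) : ∑ j, exQ i j * x j = 4 * x (i + 1) - 4 * x i := by
  have hne : i + 1 ≠ i := by
    revert i
    decide
  have : ∀ j, exQ i j * x j = (if j = i + 1 then 4 * x j else 0) - (if j = i then 4 * x j else 0) := by
    intro j
    unfold exQ
    by_cases h1 : j = i + 1
    · have h2 : j ≠ i := by
        rw [h1]
        exact hne
      simp [h1, hne]
    · by_cases h2 : j = i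
      · simp [h2, Ne.symm hne]
      · simp [h1, h2]
  simp only [this, Finset.sum_sub_distrib]
  simp

lemma isMMPP : IsMMPP exQ exLam exPi where
  nonneg := by
    intro i j hij
    unfold exQ
    split_ifs with h1 h2
    · norm_num
    · exact absurd h2.symm hij
    · exact le_rfl
  row_sum := by
    intro i
    have := exQ_mulVec (fun _ => 1) i
    simp only [mul_one] at this
    rw [this]
    norm_num
  irreducible := by
    have step : ∀ i : Fin 14, 0 < exQ i (i + 1) := by
      intro i
      unfold exQ
      rw [if_pos rfl]
      norm_num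
    have key : ∀ (n : ℕ) (i : Fin 14), Relation.ReflTransGen (fun a b => 0 < exQ a b) i
        (i + Fin.ofNat 14 n) := by
      intro n
      induction n with
      | zero =>
        intro i
        have : i + Fin.ofNat 14 0 = i := by
          revert i
          decide
        rw [this]
      | succ n ih =>
        intro i
        have h1 := ih i
        have h2 : i + Fin.ofNat 14 (n + 1) = (i + Fin.ofNat 14 n) + 1 := by
          ext
          simp only [Fin.ofNat, Fin.val_add, Fin.val_one]
          omega
        rw [h2]
        exact h1.tail (step _)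
    intro i j
    have h := key ((j - i : Fin 14) : ℕ) i
    have h2 : ∀ i j : Fin 14, i + Fin.ofNat 14 ((j - i : Fin 14) : ℕ) = j := by decide
    rwa [h2 i j] at h
  rate_nonneg := by
    intro i
    unfold exLam
    split_ifs <;> norm_num
  rate_ne_zero := ⟨0, by
    unfold exLam
    simp⟩
  stationary := by
    funext j
    have h0 : j - 1 + 1 = j := sub_add_cancel j 1
    have hne : j - 1 ≠ j := by
      revert j
      decide
    have : ∀ i, exPi i * exQ i j = (if i = j - 1 then 4 / 14 else 0) - (if i = j then 4 / 14 else 0) := by
      intro i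
      unfold exPi exQ
      by_cases h1 : i = j - 1
      · have h2 : j = i + 1 := by rw [h1, h0]
        have h3 : i ≠ j := by rw [h1]; exact hne
        rw [if_pos h2, if_pos h1, if_neg h3]
        norm_num
      · have h2 : ¬ j = i + 1 := by
          intro h
          exact h1 (by rw [h, add_sub_cancel_right])
        rw [if_neg h2, if_neg h1]
        by_cases h3 : i = j
        · rw [if_pos h3.symm, if_pos h3]
          norm_num
        · rw [if_neg (Ne.symm h3), if_neg h3]
          norm_num
    show ∑ i, exPi i * exQ i j = 0
    simp only [this, Finset.sum_sub_distrib]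
    simp
  sum_one := by
    unfold exPi
    simp

/-- The matrix `B = C + 5 I`. -/
def exB : Matrix (Fin 14) (Fin 14) ℝ := matC exQ exLam + (5 : ℝ) • (1 : Matrix (Fin 14) (Fin 14) ℝ)

/-- The diagonal entries of `B`. -/
def cf (i : Fin 14) : ℕ := if i < 7 then 0 else 1

lemma exB_mulVec (x : Fin 14 → ℝ) (i : Fin 14) : (exB *ᵥ x) i = (cf i : ℝ) * x i + 4 * x (i + 1) := by
  unfold exB matC
  rw [Matrix.add_mulVec, Matrix.sub_mulVec, Pi.add_apply, Pi.sub_apply, Matrix.mulVec_diagonal,
    Matrix.smul_mulVec, Matrix.one_mulVec, Pi.smul_apply, smul_eq_mul]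
  have : (exQ *ᵥ x) i = 4 * x (i + 1) - 4 * x i := exQ_mulVec x i
  rw [this]
  unfold exLam cf
  split_ifs <;> push_cast <;> ring

/-- The vectors `Bⁿ 1`, for `n < 36`. -/
def table : List (List ℕ) :=
  [
    [1, 1, 1, 1, 1, 1, 1, 1, 1, 1, 1, 1, 1, 1],
    [4, 4, 4, 4, 4, 4, 4, 5, 5, 5, 5, 5, 5, 5],
    [16, 16, 16, 16, 16, 16, 20, 25, 25, 25, 25, 25, 25, 21],
    [64, 64, 64, 64, 64, 80, 100, 125, 125, 125, 125, 125, 109, 85],
    [256, 256, 256, 256, 320, 400, 500, 625, 625, 625, 625, 561, 449, 341],
    [1024, 1024, 1024, 1280, 1600, 2000, 2500, 3125, 3125, 3125, 2869, 2357, 1813, 1365],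
    [4096, 4096, 5120, 6400, 8000, 10000, 12500, 15625, 15625, 14601, 12297, 9609, 7273, 5461],
    [16384, 20480, 25600, 32000, 40000, 50000, 62500, 78125, 74029, 63789, 50733, 38701, 29117,
      21845],
    [81920, 102400, 128000, 160000, 200000, 250000, 312500, 374241, 329185, 266721, 205537,
      155169, 116497, 87381],
    [409600, 512000, 640000, 800000, 1000000, 1250000, 1496964, 1690981, 1396069, 1088869, 826213,
      621157, 466021, 415061],
    [2048000, 2560000, 3200000, 4000000, 5000000, 5987856, 6763924, 7275257, 5751545, 4393721,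
      3310841, 2485241, 2126265, 2053461],
    [10240000, 12800000, 16000000, 20000000, 23951424, 27055696, 29101028, 30281437, 23326429,
      17637085, 13251805, 10990301, 10340109, 10245461],
    [51200000, 64000000, 80000000, 95805696, 108222784, 116404112, 121125748, 123587153, 93874769,
      70644305, 57213009, 52350737, 51321953, 51205461],
    [256000000, 320000000, 383222784, 432891136, 465616448, 484502992, 494348612, 499086229,
      376451989, 299496341, 266615957, 257638549, 256143797, 256005461],
    [1280000000, 1532891136, 1731564544, 1862465792, 1938011968, 1977394448, 1996344916,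
      2004894185, 1574437353, 1365960169, 1297170153, 1282213737, 1280165641, 1280005461],
    [6131564544, 6926258176, 7449863168, 7752047872, 7909577792, 7985379664, 8019576740,
      8302643597, 7038278029, 6554640781, 6426025101, 6402876301, 6400187485, 6400005461],
    [27705032704, 29799452672, 31008191488, 31638311168, 31941518656, 32078306960, 33210574388,
      36455755713, 33256841153, 32258741185, 32037530305, 32003626241, 32000209329, 30926263637],
    [119197810688, 124032765952, 126553244672, 127766074624, 128313227840, 132842297552,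
      145823022852, 169483120325, 162291805893, 160408862405, 160052035269, 160004463557,
      155705263877, 141746394453],
    [496131063808, 506212978688, 511064298496, 513252911360, 531369190208, 583292091408,
      677932481300, 818650343897, 803927255513, 800617003481, 800069889497, 782825519065,
      722690841689, 618537637205],
    [2024851914752, 2044257193984, 2053011645440, 2125476760832, 2333168365632, 2711729925200,
      3274601375588, 4034359365949, 4006395269437, 4000896561469, 3931371965757, 3673588885821,
      3196841390509, 2603061892437],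
    [8177028775936, 8212046581760, 8501907043328, 9332673462528, 10846919700800, 13098405502352,
      16137437463796, 20059940443697, 20009981515313, 19726384424497, 18625727509041,
      16460954447857, 13609088960257, 10702469551445],
    [32848186327040, 34007628173312, 37330693850112, 43387678803200, 52393622009408,
      64549749855184, 80239761774788, 100099866504949, 98915519213301, 94229294460661,
      84469545300469, 70897310288885, 56418967166037, 43410584655189],
    [136030512693248, 149322775400448, 173550715212800, 209574488037632, 258198999420736,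
      320959047099152, 400399466019796, 495761943358153, 475832697055945, 432107475662537,
      368058786456009, 296573178953033, 230061305786793, 174803329963349],
    [597291101601792, 694202860851200, 838297952150528, 1032795997682944, 1283836188396608,
      1601597864079184, 1983047773432612, 2399092731581933, 2204262599706093, 1904342621486573,
      1554351502268141, 1216818402100205, 929274625640189, 718925380736341],
    [2776811443404800, 3353191808602112, 4131183990731776, 5135344753586432, 6406391456316736,
      7932191093730448, 9596370926327732, 11216143130406305, 9821633085652385, 8121748630559137,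
      6421625110668961, 4933916904660961, 3804976148585553, 3108089787143509],
    [13412767234408448, 16524735962927104, 20541379014345728, 25625565825266944,
      31728764374921792, 38385483705310928, 44864572521625220, 50502675473015845,
      42308627607888933, 33808249073234981, 26157292729312805, 20153821499003173,
      16237335297159589, 14215335560762709],
    [66098943851708416, 82165516057382912, 102502263301067776, 126915057499687168,
      153541934821243712, 179458290086500880, 202010701892063380, 219737185904571577,
      177541623900828857, 138437419990486201, 106772578725325497, 85103162687641529,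
      73098677540210425, 67866404498396501],
    [328662064229531648, 410009053204271104, 507660229998748672, 614167739284974848,
      717833160346003520, 808042807568253520, 878948743618286308, 929903681507887005,
      731291303862773661, 565527734891788189, 447185229475891613, 377497872848483229,
      344564295533796429, 332262179905230165],
    [1640036212817084416, 2030640919994994688, 2456670957139899392, 2871332641384014080,
      3232171230273014080, 3515794974473145232, 3719614726031548020, 3855068896958981649,
      2993402243429926417, 2354268652795354641, 1957176720869824529, 1755755054983668945,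
      1673613015154717089, 1646910436823356757],
    [8122563679979978752, 9826683828559597568, 11485330565536056320, 12928684921092056320,
      14063179897892580928, 14878458904126192080, 15420275587835926596, 15828677870678687317,
      12410476854611344981, 10182975536274652757, 8980196940804500309, 8450207115602537301,
      8261254762448144117, 8207055288091694421],
    [39306735314238390272, 45941322262144225280, 51714739684368225280, 56252719591570323712,
      59513835616504768320, 61681102351343706384, 63314711482714749268, 65470585289124067241,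
      53142378999709956009, 46103763299492653993, 42781025403214649513, 41495226165395113769,
      41089475914814921801, 40697310008011609429],
    [183765289048576901120, 206858958737472901120, 225010878366281294848, 238055342466019073280,
      246724409405374825536, 253258845930858997072, 261882341156496268964, 278040101287963891277,
      237557432197680571981, 217227864912351252045, 208761930064795104589, 205853129824654800973,
      203878715946861359517, 197924251264965170517],
    [827435834949891604480, 900043513465125179392, 952221369864076293120, 986897637621499302144,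
      1013035383723435988288, 1047529364625985075856, 1112160405151855565108,
      1228269830078686179201, 1106468891847085580161, 1052275585171531670401,
      1032174449363414308481, 1021367993612100239041, 995575721006722041585,
      932985407459272774997],
    [3600174053860500717568, 3808885479456305172480, 3947590550485997208576,
      4052141534893743953152, 4190117458503940303424, 4448641620607422260432,
      4913079320314744716804, 5654145397467028499845, 5315571232533212261765,
      5180973382625188904325, 5117646423811815264645, 5003670877638988405381,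
      4727517350843813141573, 4242728747258839192917],
    [15235541917825220689920, 15790362201943988834304, 16208566139574975812608,
      16760469834015761213696, 17794566482429689041728, 19652317281258978867216,
      22616581589868113999380, 26916430327599877546905, 26039464763033967879065,
      25651559077872449962905, 25132329934367768886169, 23913740281014240971673,
      21698432339879169913241, 18643424962700842063189],
    [63161448807775955337216, 64834264558299903250432, 67041879336063044854784,
      71178265929718756166912, 78609269125035915468864, 90466326359472455997520,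
      107665721310399510187620, 131074289379735749063165, 128645701074523767730685,
      126180878815343525507581, 120787291058424732772861, 110707469640530920624637,
      96272132190682538165997, 79585592634001724822869]
  ]

/-- The entries of the table. -/
def tab (n : ℕ) (i : Fin 14) : ℕ := (table.getD n []).getD i 0

lemma tab_zero (i : Fin 14) : tab 0 i = 1 := by
  revert i
  decide +kernel

lemma tab_succ : ∀ n < 35, ∀ i : Fin 14, tab (n + 1) i = cf i * tab n i + 4 * tab n (i + 1) := by
  decide +kernel

lemma pow_mulVec (n : ℕ) (hn : n < 36) (i : Fin 14) : (exB ^ n *ᵥ 1) i = (tab n i : ℝ) := by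
  induction n generalizing i with
  | zero =>
    rw [tab_zero]
    simp
  | succ n ih =>
    rw [pow_succ', ← Matrix.mulVec_mulVec, exB_mulVec, ih (by omega), ih (by omega),
      tab_succ n (by omega)]
    push_cast
    ring

lemma pow_bound (n : ℕ) (i : Fin 14) : 0 ≤ (exB ^ n *ᵥ 1) i ∧ (exB ^ n *ᵥ 1) i ≤ 5 ^ n := by
  induction n generalizing i with
  | zero => simp
  | succ n ih =>
    rw [pow_succ', ← Matrix.mulVec_mulVec, exB_mulVec]
    have h1 := ih i
    have h2 := ih (i + 1)
    have h3 : (cf i : ℝ) = 0 ∨ (cf i : ℝ) = 1 := by
      unfold cf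
      split_ifs
      · left; norm_num
      · right; norm_num
    rcases h3 with h3 | h3 <;> rw [h3] <;> constructor
    · linarith [h2.1]
    · have : (5 : ℝ) ^ (n + 1) = 5 ^ n + 4 * 5 ^ n := by ring
      have h5 : (0 : ℝ) ≤ 5 ^ n := by positivity
      linarith [h2.2]
    · linarith [h2.1, h1.1]
    · have : (5 : ℝ) ^ (n + 1) = 5 ^ n + 4 * 5 ^ n := by ring
      linarith [h2.2, h1.2]

/-- The row vector `14 (α - π)`. -/
def sg (i : Fin 14) : ℤ := if i < 7 then 1 else -1

/-- The functional `M ↦ 14 (α - π) M 1`. -/
noncomputable def fn : Matrix (Fin 14) (Fin 14) ℝ →ₗ[ℝ] ℝ where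
  toFun M := ∑ i, (sg i : ℝ) * (M *ᵥ 1) i
  map_add' M N := by
    simp only [Matrix.add_mulVec, Pi.add_apply, mul_add, Finset.sum_add_distrib]
  map_smul' c M := by
    simp only [Matrix.smul_mulVec, Pi.smul_apply, smul_eq_mul, RingHom.id_apply, Finset.mul_sum]
    exact Finset.sum_congr rfl fun i _ => by ring

lemma fn_bound (n : ℕ) : |fn (exB ^ n)| ≤ 14 * 5 ^ n := by
  show |∑ i, (sg i : ℝ) * (exB ^ n *ᵥ 1) i| ≤ 14 * 5 ^ n
  refine (Finset.abs_sum_le_sum_abs _ _).trans ?_
  have : ∀ i ∈ (Finset.univ : Finset (Fin 14)), |(sg i : ℝ) * (exB ^ n *ᵥ 1) i| ≤ 5 ^ n := by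
    intro i _
    have h := pow_bound n i
    rw [abs_mul, abs_of_nonneg h.1]
    have : |(sg i : ℝ)| = 1 := by
      unfold sg
      split_ifs <;> norm_num
    rw [this, one_mul]
    exact h.2
  refine (Finset.sum_le_sum this).trans ?_
  simp

/-- The numbers `14 (α - π) Bⁿ 1`, for `n < 36`. -/
def an (n : ℕ) : ℤ := ∑ i, sg i * (tab n i : ℤ)

lemma fn_pow (n : ℕ) (hn : n < 36) : fn (exB ^ n) = (an n : ℝ) := by
  show ∑ i, (sg i : ℝ) * (exB ^ n *ᵥ 1) i = (an n : ℝ)
  unfold an
  push_cast
  refine Finset.sum_congr rfl fun i _ => ?_
  rw [pow_mulVec n hn i]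

lemma partial_sum : (33000 : ℚ) ≤ ∑ n ∈ Finset.range 36, (3 : ℚ) ^ n / (n.factorial : ℚ) * (an n : ℚ) := by
  decide +kernel

lemma partial_exp : (3269002 : ℚ) ≤ ∑ n ∈ Finset.range 36, (15 : ℚ) ^ n / (n.factorial : ℚ) := by
  decide +kernel

lemma exp_fifteen_le : Real.exp 15 ≤ 3269018 := by
  have h1 : Real.exp 15 = Real.exp 1 ^ 15 := by
    rw [← Real.exp_nat_mul]
    norm_num
  rw [h1]
  calc Real.exp 1 ^ 15 ≤ (2.7182818286 : ℝ) ^ 15 :=
        pow_le_pow_left₀ (Real.exp_pos _).le Real.exp_one_lt_d9.le 15
    _ ≤ 3269018 := by norm_num

open scoped Matrix.Norms.Operator in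
lemma hasSum_fn : HasSum (fun n : ℕ => (3 : ℝ) ^ n / (n.factorial : ℝ) * fn (exB ^ n))
    (fn (NormedSpace.exp ((3 : ℝ) • exB))) := by
  have h := NormedSpace.exp_series_hasSum_exp' (𝕂 := ℝ) ((3 : ℝ) • exB)
  have hc : Continuous fn := LinearMap.continuous_of_finiteDimensional fn
  have h2 := h.map fn.toAddMonoidHom hc
  have h3 : (fun n : ℕ => (3 : ℝ) ^ n / (n.factorial : ℝ) * fn (exB ^ n)) =
      (fn.toAddMonoidHom ∘ fun n : ℕ => ((n.factorial : ℝ)⁻¹) • ((3 : ℝ) • exB) ^ n) := by
    funext n
    show _ = fn (((n.factorial : ℝ)⁻¹) • ((3 : ℝ) • exB) ^ n)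
    rw [smul_pow, smul_smul, map_smul, smul_eq_mul]
    congr 1
    rw [mul_comm, div_eq_mul_inv, mul_comm]
  rw [h3]
  exact h2

lemma fn_exp_pos : 0 < fn (NormedSpace.exp ((3 : ℝ) • exB)) := by
  have h := hasSum_fn
  set f : ℕ → ℝ := fun n => (3 : ℝ) ^ n / (n.factorial : ℝ) * fn (exB ^ n) with hf
  set g : ℕ → ℝ := fun n => 14 * ((15 : ℝ) ^ n / (n.factorial : ℝ)) with hg
  have hgs : HasSum (fun n : ℕ => (15 : ℝ) ^ n / (n.factorial : ℝ)) (Real.exp 15) := by
    have := NormedSpace.expSeries_div_hasSum_exp (15 : ℝ)
    rwa [← Real.exp_eq_exp_ℝ] at this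
  have hg' : HasSum g (14 * Real.exp 15) := hgs.mul_left 14
  have hfg : ∀ n, -g n ≤ f n := by
    intro n
    have h1 := (abs_le.1 (fn_bound n)).1
    have h2 : (0 : ℝ) ≤ 3 ^ n / (n.factorial : ℝ) := by positivity
    have h3 : g n = 3 ^ n / (n.factorial : ℝ) * (14 * 5 ^ n) := by
      rw [hg]
      simp only
      rw [show (15 : ℝ) = 3 * 5 by norm_num, mul_pow]
      ring
    rw [h3, hf]
    simp only
    have := mul_le_mul_of_nonneg_left h1 h2
    linarith
  have e1 := h.summable.sum_add_tsum_nat_add 36
  have e2 := hg'.summable.sum_add_tsum_nat_add 36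
  rw [h.tsum_eq] at e1
  rw [hg'.tsum_eq] at e2
  have e3 : -(∑' i, g (i + 36)) ≤ ∑' i, f (i + 36) := by
    rw [← tsum_neg]
    exact ((summable_nat_add_iff 36).2 hg'.summable).neg.tsum_le_tsum (fun i => hfg _)
      ((summable_nat_add_iff 36).2 h.summable)
  have e4 : (33000 : ℝ) ≤ ∑ n ∈ Finset.range 36, f n := by
    have h1 : ((33000 : ℚ) : ℝ) ≤
        ((∑ n ∈ Finset.range 36, (3 : ℚ) ^ n / (n.factorial : ℚ) * (an n : ℚ) : ℚ) : ℝ) :=
      Rat.cast_le.2 partial_sum
    push_cast at h1
    refine h1.trans (le_of_eq (Finset.sum_congr rfl fun n hn => ?_))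
    rw [hf]
    simp only
    rw [fn_pow n (Finset.mem_range.1 hn)]
  have e5 : (14 * 3269002 : ℝ) ≤ ∑ n ∈ Finset.range 36, g n := by
    have h1 : ((3269002 : ℚ) : ℝ) ≤
        ((∑ n ∈ Finset.range 36, (15 : ℚ) ^ n / (n.factorial : ℚ) : ℚ) : ℝ) :=
      Rat.cast_le.2 partial_exp
    push_cast at h1
    rw [hg]
    rw [← Finset.mul_sum]
    linarith
  have e6 := exp_fifteen_le
  linarith

open scoped Matrix.Norms.Operator in
lemma exp_eq : NormedSpace.exp ((3 : ℝ) • matC exQ exLam) =
    Real.exp (-15) • NormedSpace.exp ((3 : ℝ) • exB) := by
  have h1 : (3 : ℝ) • matC exQ exLam =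
      (3 : ℝ) • exB + algebraMap ℝ (Matrix (Fin 14) (Fin 14) ℝ) (-15) := by
    unfold exB
    rw [Algebra.algebraMap_eq_smul_one, smul_add, smul_smul]
    rw [add_assoc, ← add_smul]
    norm_num
  have h2 : NormedSpace.exp (algebraMap ℝ (Matrix (Fin 14) (Fin 14) ℝ) (-15)) =
      algebraMap ℝ (Matrix (Fin 14) (Fin 14) ℝ) (Real.exp (-15)) := by
    rw [Real.exp_eq_exp_ℝ]
    exact (NormedSpace.algebraMap_exp_comm (𝕂 := ℝ) (-15 : ℝ)).symm
  rw [h1, Matrix.exp_add_of_commute _ _ (Algebra.commute_algebraMap_right _ _), h2,
    Algebra.algebraMap_eq_smul_one, mul_smul_comm, mul_one]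

lemma rate_sum : ∑ j, exPi j * exLam j = 1 / 2 := by
  unfold exPi exLam
  rw [← Finset.mul_sum, Finset.sum_ite]
  simp only [Finset.sum_const_zero, add_zero, Finset.sum_const, nsmul_eq_mul, mul_one]
  have : (Finset.univ.filter (fun i : Fin 14 => i < 7)).card = 7 := by decide
  rw [this]
  norm_num

/-- **Q1, negated form**: there are a Markov-modulated Poisson process and `t ≥ 0` with
`π exp(C t) 1 < α exp(C t) 1`. -/
theorem result : ∃ (p : ℕ) (Q : Matrix (Fin p) (Fin p) ℝ) (lam pi : Fin p → ℝ),
    IsMMPP Q lam pi ∧
      ∃ t : ℝ, 0 ≤ t ∧ survival (matC Q lam) pi t < survival (matC Q lam) (alpha lam pi) t := by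
  refine ⟨14, exQ, exLam, exPi, isMMPP, 3, by norm_num, ?_⟩
  unfold survival
  rw [exp_eq, Matrix.smul_mulVec, dotProduct_smul, dotProduct_smul, smul_eq_mul, smul_eq_mul]
  refine mul_lt_mul_of_pos_left ?_ (Real.exp_pos _)
  have h := fn_exp_pos
  set M := NormedSpace.exp ((3 : ℝ) • exB) with hM
  have h1 : fn M = 14 * (alpha exLam exPi ⬝ᵥ (M *ᵥ 1)) - 14 * (exPi ⬝ᵥ (M *ᵥ 1)) := by
    show ∑ i, (sg i : ℝ) * (M *ᵥ 1) i = _
    simp only [dotProduct]
    rw [Finset.mul_sum, Finset.mul_sum, ← Finset.sum_sub_distrib]
    refine Finset.sum_congr rfl fun i _ => ?_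
    unfold alpha
    rw [rate_sum]
    unfold sg exPi exLam
    split_ifs <;> push_cast <;> ring
  linarith

end Pool.Agent.Results.MP_af8c33_pr.NoStochasticOrder
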